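import Pool.Agent.Helper97.NR.Core
import Pool.Agent.Helper97.NR.Expansion
import Pool.Agent.Helper97.NR.Sub

/-!
# Nonrepetitive colouring: single exponential, and even subexponential, expansion does not suffice

`ShallowMinor G r n H` (the graph `H` on `Fin n` is an `r`-shallow minor of `G`), `ExpansionLe G f`
(every `r`-shallow minor with `n` vertices has at most `f r * n` edges, for every `r`),
`Nonrepetitive G c` and `UnboundedPi f` (for every `k` some finite graph with expansion bounded by
`f` has no nonrepetitive colouring by `k` colours, so that the class of the finite graphs with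
expansion bounded by `f` has unbounded nonrepetitive chromatic number) are defined in
`Pool.Agent.Helper97.NR.Expansion`.

(1) Q2: there is `c` such that `UnboundedPi (fun r => c ^ (r + 1))`.
(2) For every nondecreasing `h` such that `∑ h (3 ^ i) / 3 ^ i` diverges:
`UnboundedPi (fun r => 2 + 2 * 4 ^ h (4 * r + 1))`.
(3) There is a subexponential `f` (`log (f r) / r → 0`) with `UnboundedPi f`.

Proof. A gadget is a graph with two ends. `step n g` has two layers of `n` hubs; the first end is
linked to the first layer, the first to the second layer, and the second layer to the second end, by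
copies of `g`. Given a nonrepetitive colouring by `k` colours, choose `n' = n / k` hubs of one colour
in each layer. If a word `x` is the colour word of a path through the links `a₁b₁`, `a₂b₁`, `a₂b₂`,
`a₃b₂`, there is a square `a₁ x b₁ x⁻¹ a₂ x b₂ x⁻¹`; hence a word occurs in at most `2 n'` of the
`n' ^ 2` links between the layers, and if `g` always has at least `M` colour words then `step n g` has
at least `n' M ^ 3 / 2`. After sufficiently many steps there are more words than `k ^ R`. A radius
`r` branch set sees only the hubs of the scales of length at most `4 r`, which bounds the expansion.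
-/

set_option autoImplicit false

namespace Pool.Agent.Results.MP_b63a31_co.SubexponentialExpansion

open Pool.Agent.Helper97.NR Filter Topology

theorem unbounded_of_div {h : ℕ → ℕ} (hm : Monotone h)
    (hdiv : ¬ Summable (fun i : ℕ => (h (3 ^ i) : ℝ) / 3 ^ i)) :
    UnboundedPi (fun r => 2 + 2 * 4 ^ h (4 * r + 1)) := by
  intro k
  obtain ⟨g, hS, hN⟩ := exists_gad hm hdiv k
  refine ⟨Bool ⊕ g.V, inferInstance, g.A, ?_, ?_⟩
  · rintro r n H ⟨B, x, hdis, hB, hH⟩
    exact Pool.Agent.H25.NR.edges_le (by omega) (hS r) n H B x hdis hB hH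
  · rintro ⟨c, hc⟩
    exact hN c (Pool.Agent.Helper79.NR.nonRep_of_walks g.A c hc)

theorem UnboundedPi.mono {f f' : ℕ → ℕ} (hf : UnboundedPi f) (hff : ∀ r, f r ≤ f' r) :
    UnboundedPi f' := by
  intro k
  obtain ⟨V, hV, G, h1, h2⟩ := hf k
  exact ⟨V, hV, G, fun r n H hH => (h1 r n H hH).trans (Nat.mul_le_mul_right _ (hff r)), h2⟩

theorem single_exponential : UnboundedPi (fun r => (4 ^ 6) ^ (r + 1)) := by
  refine UnboundedPi.mono (unbounded_of_div (h := fun m => m) monotone_id ?_) ?_
  · have : (fun i : ℕ => (((3 ^ i : ℕ) : ℝ)) / 3 ^ i) = fun _ => (1 : ℝ) := by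
      funext i
      push_cast
      exact div_self (by positivity)
    rw [this, summable_const_iff]
    norm_num
  · intro r
    have h1 : 1 ≤ 4 ^ (4 * r + 1) := Nat.one_le_pow _ _ (by norm_num)
    calc 2 + 2 * 4 ^ (4 * r + 1) ≤ 4 ^ 1 * 4 ^ (4 * r + 1) := by omega
      _ = 4 ^ (1 + (4 * r + 1)) := by rw [← pow_add]
      _ ≤ 4 ^ (6 * (r + 1)) := Nat.pow_le_pow_right (by norm_num) (by omega)
      _ = (4 ^ 6) ^ (r + 1) := by rw [pow_mul]

/-- Main result. -/
theorem result :
    (∃ c : ℕ, UnboundedPi (fun r => c ^ (r + 1))) ∧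
    (∀ h : ℕ → ℕ, Monotone h → ¬ Summable (fun i : ℕ => (h (3 ^ i) : ℝ) / 3 ^ i) →
      UnboundedPi (fun r => 2 + 2 * 4 ^ h (4 * r + 1))) ∧
    (∃ f : ℕ → ℕ, Tendsto (fun r : ℕ => Real.log (f r) / r) atTop (𝓝 0) ∧ UnboundedPi f) :=
  ⟨⟨_, single_exponential⟩, fun _ hm hdiv => unbounded_of_div hm hdiv,
    ⟨fs, fs_sub, unbounded_of_div hs_mono hs_div⟩⟩

end Pool.Agent.Results.MP_b63a31_co.SubexponentialExpansion
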